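import Mathlib

/-!
# Integer flows on finite simple graphs

* `exists_unit` : a unit flow along a directed path of a relation;
* `tutte` : every `ZMod k`-flow lifts to an integer flow with `|g| < k`;
* `cycles_of_flow` : a flow with values in `{-1,0,1}` decomposes into directed cycles.
-/

set_option autoImplicit false
set_option linter.unusedSectionVars false
open scoped Classical
open Finset

namespace Pool.Agent.H46.Flow

variable {V : Type} [Fintype V]

/-- `f` is a flow on `G` with values in the additive group `R`. -/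
structure IsFlow (G : SimpleGraph V) {R : Type} [AddCommGroup R] (f : V → V → R) : Prop where
  anti : ∀ u v, f u v = - f v u
  supp : ∀ u v, ¬ G.Adj u v → f u v = 0
  cons : ∀ u, ∑ v, f u v = 0

namespace IsFlow

variable {G : SimpleGraph V} {R : Type} [AddCommGroup R] {f g : V → V → R}

theorem diag (hf : IsFlow G f) (u : V) : f u u = 0 := hf.supp u u (G.loopless.irrefl u)

theorem add (hf : IsFlow G f) (hg : IsFlow G g) : IsFlow G (fun u v => f u v + g u v) where
  anti u v := by rw [hf.anti u v, hg.anti u v]; abel
  supp u v h := by rw [hf.supp u v h, hg.supp u v h, add_zero]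
  cons u := by rw [Finset.sum_add_distrib, hf.cons, hg.cons, add_zero]

theorem neg (hf : IsFlow G f) : IsFlow G (fun u v => - f u v) where
  anti u v := by rw [hf.anti u v]
  supp u v h := by rw [hf.supp u v h, neg_zero]
  cons u := by rw [Finset.sum_neg_distrib, hf.cons, neg_zero]

theorem sub (hf : IsFlow G f) (hg : IsFlow G g) : IsFlow G (fun u v => f u v - g u v) where
  anti u v := by rw [hf.anti u v, hg.anti u v]; abel
  supp u v h := by rw [hf.supp u v h, hg.supp u v h, sub_zero]
  cons u := by rw [Finset.sum_sub_distrib, hf.cons, hg.cons, sub_zero]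

theorem zero : IsFlow G (fun _ _ : V => (0 : R)) where
  anti u v := by simp
  supp u v h := rfl
  cons u := by simp

end IsFlow

/-! ### Cuts -/

theorem sum_inner {R : Type} [AddCommGroup R] (f : V → V → R) (anti : ∀ u v, f u v = - f v u)
    (diag : ∀ u, f u u = 0) (S : Finset V) : ∑ u ∈ S, ∑ v ∈ S, f u v = 0 := by
  induction S using Finset.induction_on with
  | empty => simp
  | insert a S ha ih =>
    rw [Finset.sum_insert ha, Finset.sum_insert ha, diag a, zero_add]
    have h1 : ∑ u ∈ S, ∑ v ∈ insert a S, f u v = ∑ u ∈ S, f u a + ∑ u ∈ S, ∑ v ∈ S, f u v := by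
      rw [← Finset.sum_add_distrib]
      refine Finset.sum_congr rfl fun u _ => ?_
      rw [Finset.sum_insert ha]
    rw [h1, ih, add_zero, ← Finset.sum_add_distrib]
    refine Finset.sum_eq_zero fun u _ => ?_
    rw [anti a u]; abel

theorem sum_cut {R : Type} [AddCommGroup R] (f : V → V → R) (anti : ∀ u v, f u v = - f v u)
    (diag : ∀ u, f u u = 0) (S : Finset V) :
    ∑ u ∈ S, ∑ v, f u v = ∑ u ∈ S, ∑ v ∈ Sᶜ, f u v := by
  have h : ∀ u, ∑ v, f u v = ∑ v ∈ S, f u v + ∑ v ∈ Sᶜ, f u v := fun u =>
    (Finset.sum_add_sum_compl S _).symm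
  simp_rw [h]
  rw [Finset.sum_add_distrib, sum_inner f anti diag S, zero_add]

/-! ### Unit flows along walks -/

/-- (uses of the arc `(a,b)`) - (uses of the arc `(b,a)`). -/
noncomputable def wf {G : SimpleGraph V} {u v : V} (w : G.Walk u v) (a b : V) : ℤ :=
  (w.darts.countP (fun d => decide (d.toProd = (a, b))) : ℤ) -
    (w.darts.countP (fun d => decide (d.toProd = (b, a))) : ℤ)

theorem wf_anti {G : SimpleGraph V} {u v : V} (w : G.Walk u v) (a b : V) :
    wf w a b = - wf w b a := by unfold wf; ring

theorem sum_wf {G : SimpleGraph V} {u v : V} (w : G.Walk u v) (a : V) :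
    ∑ b, wf w a b = (if a = u then 1 else 0) - (if a = v then 1 else 0) := by
  induction w with
  | nil => simp [wf]
  | @cons u v' v h p ih =>
    have h1 : ∀ b, wf (SimpleGraph.Walk.cons h p) a b =
        wf p a b + ((if (a, b) = (u, v') then 1 else 0) - (if (b, a) = (u, v') then 1 else 0)) := by
      intro b
      unfold wf
      rw [SimpleGraph.Walk.darts_cons, List.countP_cons, List.countP_cons]
      have e1 : (decide (((⟨(u, v'), h⟩ : G.Dart)).toProd = (a, b)) = true) ↔ (a, b) = (u, v') := by
        simp only [decide_eq_true_eq]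
        exact eq_comm
      have e2 : (decide (((⟨(u, v'), h⟩ : G.Dart)).toProd = (b, a)) = true) ↔ (b, a) = (u, v') := by
        simp only [decide_eq_true_eq]
        exact eq_comm
      simp only [e1, e2]
      push_cast
      ring
    simp_rw [h1]
    rw [Finset.sum_add_distrib, ih, Finset.sum_sub_distrib]
    have s1 : ∑ b : V, (if (a, b) = (u, v') then (1 : ℤ) else 0) = if a = u then 1 else 0 := by
      simp only [Prod.mk.injEq]
      by_cases hau : a = u
      · simp [hau]
      · simp [hau]
    have s2 : ∑ b : V, (if (b, a) = (u, v') then (1 : ℤ) else 0) = if a = v' then 1 else 0 := by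
      simp only [Prod.mk.injEq]
      by_cases hav : a = v'
      · simp [hav]
      · simp [hav]
    rw [s1, s2]
    ring

theorem countP_dart_le_one {G : SimpleGraph V} {u v : V} (w : G.Walk u v)
    (hw : w.darts.Nodup) (a b : V) :
    w.darts.countP (fun d => decide (d.toProd = (a, b))) ≤ 1 := by
  by_cases h : ∃ d ∈ w.darts, d.toProd = (a, b)
  · obtain ⟨d, hd, hd2⟩ := h
    have h1 : w.darts.countP (fun d => decide (d.toProd = (a, b))) = w.darts.count d := by
      rw [List.count]
      apply List.countP_congr
      intro x _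
      simp only [decide_eq_true_eq, beq_iff_eq]
      constructor
      · intro hx
        exact SimpleGraph.Dart.toProd_injective (hx.trans hd2.symm)
      · rintro rfl
        exact hd2
    rw [h1]
    exact List.nodup_iff_count_le_one.mp hw d
  · push Not at h
    have : w.darts.countP (fun d => decide (d.toProd = (a, b))) = 0 := by
      rw [List.countP_eq_zero]
      intro d hd
      simpa using h d hd
    omega

theorem exists_walk (R : V → V → Prop) {x y : V} (h : Relation.ReflTransGen R x y) :
    ∃ w : (SimpleGraph.fromRel R).Walk x y, ∀ d ∈ w.darts, R d.fst d.snd := by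
  induction h using Relation.ReflTransGen.head_induction_on with
  | refl => exact ⟨SimpleGraph.Walk.nil, by simp⟩
  | @head a c hac _ ih =>
    obtain ⟨w, hw⟩ := ih
    by_cases hne : a = c
    · subst hne
      exact ⟨w, hw⟩
    · refine ⟨SimpleGraph.Walk.cons (by rw [SimpleGraph.fromRel_adj]; exact ⟨hne, Or.inl hac⟩) w, ?_⟩
      intro d hd
      rw [SimpleGraph.Walk.darts_cons, List.mem_cons] at hd
      rcases hd with rfl | hd
      · exact hac
      · exact hw d hd

theorem exists_path (R : V → V → Prop) {x y : V} (h : Relation.ReflTransGen R x y) :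
    ∃ w : (SimpleGraph.fromRel R).Walk x y, w.IsPath ∧ ∀ d ∈ w.darts, R d.fst d.snd := by
  obtain ⟨w, hw⟩ := exists_walk R h
  exact ⟨w.bypass, w.bypass_isPath, fun d hd => hw d (w.darts_bypass_subset_darts hd)⟩

/-- A unit flow from `x` to `y` using only arcs of the relation `R`. -/
theorem exists_unit (R : V → V → Prop) {x y : V} (h : Relation.ReflTransGen R x y) :
    ∃ p : V → V → ℤ, (∀ u v, p u v = - p v u) ∧ (∀ u v, p u v ≤ 1) ∧
      (∀ u v, 0 < p u v → R u v) ∧
      ∀ u, ∑ v, p u v = (if u = x then 1 else 0) - (if u = y then 1 else 0) := by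
  obtain ⟨w, hp, hw⟩ := exists_path R h
  refine ⟨wf w, wf_anti w, ?_, ?_, sum_wf w⟩
  · intro u v
    have h1 := countP_dart_le_one w
      (SimpleGraph.Walk.darts_nodup_of_support_nodup hp.support_nodup) u v
    unfold wf
    omega
  · intro u v huv
    unfold wf at huv
    have h1 : 0 < w.darts.countP (fun d => decide (d.toProd = (u, v))) := by omega
    rw [List.countP_pos_iff] at h1
    obtain ⟨d, hd, hd2⟩ := h1
    have h2 : d.toProd = (u, v) := by simpa using hd2
    have h3 := hw d hd
    have e1 : d.fst = u := congrArg Prod.fst h2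
    have e2 : d.snd = v := congrArg Prod.snd h2
    rwa [e1, e2] at h3

/-! ### Tutte's lifting lemma -/

theorem lift_aux {G : SimpleGraph V} {k : ℕ} (hk : 0 < k) (f : V → V → ZMod k)
    (hf : IsFlow G f) : ∀ (N : ℕ) (g : V → V → ℤ), (∀ u v, g u v = - g v u) →
      (∀ u v, (g u v : ZMod k) = f u v) → (∀ u v, g u v < k) →
      (∑ u, (∑ v, g u v).natAbs = N) →
      ∃ g : V → V → ℤ, IsFlow G g ∧ (∀ u v, (g u v : ZMod k) = f u v) ∧ ∀ u v, g u v < k := by
  intro N
  induction N using Nat.strong_induction_on with
  | _ N ih =>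
  intro g anti hgf hlt hN
  have hdiag : ∀ u, g u u = 0 := fun u => by have := anti u u; omega
  have hlow : ∀ u v, -(k : ℤ) < g u v := fun u v => by
    have := anti u v; have := hlt v u; omega
  have hsupp : ∀ u v, ¬ G.Adj u v → g u v = 0 := by
    intro u v h
    have h1 : (g u v : ZMod k) = 0 := by rw [hgf, hf.supp u v h]
    rw [ZMod.intCast_zmod_eq_zero_iff_dvd] at h1
    exact Int.eq_zero_of_abs_lt_dvd h1 (abs_lt.mpr ⟨hlow u v, hlt u v⟩)
  by_cases hz : ∀ u, ∑ v, g u v = 0
  · exact ⟨g, ⟨anti, hsupp, hz⟩, hgf, hlt⟩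
  push Not at hz
  have htot : ∑ u, ∑ v, g u v = 0 := sum_inner g anti hdiag univ
  obtain ⟨x, -, hx⟩ := Finset.exists_pos_of_sum_zero_of_exists_nonzero _ htot
    (by obtain ⟨u, hu⟩ := hz; exact ⟨u, mem_univ u, hu⟩)
  set R : V → V → Prop := fun u v => 0 < g u v with hR
  set S : Finset V := univ.filter (fun y => Relation.ReflTransGen R x y) with hS
  have hxS : x ∈ S := by simp [hS, Relation.ReflTransGen.refl]
  have hcut : ∑ u ∈ S, ∑ v, g u v ≤ 0 := by
    rw [sum_cut g anti hdiag S]
    refine Finset.sum_nonpos fun u hu => Finset.sum_nonpos fun v hv => ?_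
    by_contra hcon
    push Not at hcon
    rw [Finset.mem_compl] at hv
    apply hv
    simp only [hS, mem_filter, mem_univ, true_and] at hu ⊢
    exact hu.tail hcon
  obtain ⟨y, hyS, hy⟩ : ∃ y ∈ S, ∑ v, g y v < 0 := by
    by_contra hcon
    push Not at hcon
    have := Finset.single_le_sum (f := fun u => ∑ v, g u v) (fun u hu => hcon u hu) hxS
    omega
  have hxy : Relation.ReflTransGen R x y := by
    simpa [hS] using hyS
  obtain ⟨p, panti, ple, ppos, psum⟩ := exists_unit R hxy
  have hne : x ≠ y := by rintro rfl; omega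
  have hdvd : ∀ u, (k : ℤ) ∣ ∑ v, g u v := by
    intro u
    rw [← ZMod.intCast_zmod_eq_zero_iff_dvd]
    push_cast
    simp_rw [hgf]
    exact hf.cons u
  have hgex : (k : ℤ) ≤ ∑ v, g x v := Int.le_of_dvd hx (hdvd x)
  have hgey : (k : ℤ) ≤ -∑ v, g y v := Int.le_of_dvd (by omega) ((dvd_neg).mpr (hdvd y))
  have hpcases : ∀ u v, p u v = 0 ∨ (p u v = 1 ∧ 0 < g u v) ∨ (p u v = -1 ∧ g u v < 0) := by
    intro u v
    have h1 := ple u v
    have h2 := ple v u
    have h3 := panti u v
    rcases lt_trichotomy (p u v) 0 with h | h | h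
    · right; right
      have h4 : 0 < p v u := by omega
      have h5 := ppos v u h4
      have h6 := anti u v
      simp only [hR] at h5
      exact ⟨by omega, by omega⟩
    · left; exact h
    · right; left
      exact ⟨by omega, ppos u v h⟩
  set g' : V → V → ℤ := fun u v => g u v - k * p u v with hg'
  have hsum' : ∀ u, ∑ v, g' u v = ∑ v, g u v -
      k * ((if u = x then 1 else 0) - (if u = y then 1 else 0)) := by
    intro u
    rw [hg', Finset.sum_sub_distrib, ← Finset.mul_sum, psum u]
  refine ih (∑ u, (∑ v, g' u v).natAbs) ?_ g' ?_ ?_ ?_ rfl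
  · rw [← hN]
    refine Finset.sum_lt_sum (fun u _ => ?_) ⟨x, mem_univ x, ?_⟩
    · rw [hsum' u]
      by_cases h1 : u = x
      · subst h1
        simp only [if_true, if_neg hne]
        omega
      · by_cases h2 : u = y
        · subst h2
          simp only [if_true, if_neg h1]
          omega
        · simp [h1, h2]
    · rw [hsum' x]
      simp only [if_true, if_neg hne]
      omega
  · intro u v
    simp only [hg']
    rw [anti u v, panti u v]
    ring
  · intro u v
    simp only [hg']
    push_cast
    rw [hgf]
    simp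
  · intro u v
    simp only [hg']
    have h1 := hlow u v
    have h2 := hlt u v
    rcases hpcases u v with h | ⟨h, h3⟩ | ⟨h, h3⟩ <;> rw [h] <;> omega

/-- **Tutte's lemma**: a flow with values in `ZMod k` lifts to an integer flow with values
of absolute value less than `k`. -/
theorem tutte {G : SimpleGraph V} {k : ℕ} (hk : 0 < k) (f : V → V → ZMod k)
    (hf : IsFlow G f) : ∃ g : V → V → ℤ, IsFlow G g ∧ (∀ u v, (g u v : ZMod k) = f u v) ∧
      ∀ u v, g u v < k := by
  have : NeZero k := ⟨hk.ne'⟩
  let e : V ≃ Fin (Fintype.card V) := Fintype.equivFin V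
  let g0 : V → V → ℤ := fun u v => if e u < e v then ((f u v).val : ℤ) else -((f v u).val : ℤ)
  refine lift_aux hk f hf _ g0 ?_ ?_ ?_ rfl
  · intro u v
    simp only [g0]
    rcases lt_trichotomy (e u) (e v) with h | h | h
    · rw [if_pos h, if_neg (by omega)]; simp
    · have huv : u = v := e.injective h
      subst huv
      simp [hf.diag u]
    · rw [if_neg (by omega), if_pos h]
  · intro u v
    simp only [g0]
    split_ifs with h
    · simp
    · push_cast
      rw [ZMod.natCast_zmod_val, ← hf.anti u v]
  · intro u v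
    simp only [g0]
    split_ifs with h
    · exact_mod_cast ZMod.val_lt _
    · have : (0 : ℤ) ≤ ((f v u).val : ℤ) := by positivity
      have : (0 : ℤ) < k := by exact_mod_cast hk
      omega

/-! ### Decomposition of `{-1,0,1}`-flows into directed cycles -/

/-- The number of times the closed walks of `C` use the arc `(u, v)`. -/
noncomputable def arcCount {G : SimpleGraph V} (C : List (Σ v : V, G.Walk v v)) (u v : V) : ℕ :=
  (C.map (fun c => (c.2.darts.filter (fun d => decide (d.toProd = (u, v)))).length)).sum

theorem arcCount_nil {G : SimpleGraph V} (u v : V) :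
    arcCount (G := G) [] u v = 0 := rfl

theorem arcCount_append {G : SimpleGraph V} (C D : List (Σ v : V, G.Walk v v)) (u v : V) :
    arcCount (C ++ D) u v = arcCount C u v + arcCount D u v := by
  simp [arcCount]

theorem arcCount_cons {G : SimpleGraph V} (c : Σ v : V, G.Walk v v)
    (D : List (Σ v : V, G.Walk v v)) (u v : V) :
    arcCount (c :: D) u v =
      c.2.darts.countP (fun d => decide (d.toProd = (u, v))) + arcCount D u v := by
  simp [arcCount, List.countP_eq_length_filter]

/-- A nonzero `{-1,0,1}`-flow contains a directed cycle. -/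
theorem exists_cycle {G : SimpleGraph V} (E : V → V → ℤ) (hE : IsFlow G E)
    (h1 : ∀ u v, E u v ≤ 1) {a b : V} (hab : E a b = 1) :
    ∃ c : G.Walk a a, c.IsCycle ∧ (∀ d ∈ c.darts, E d.fst d.snd = 1) ∧
      c.darts.countP (fun d => decide (d.toProd = (a, b))) = 1 := by
  set R : V → V → Prop := fun u v => E u v = 1 with hR
  have hEadj : ∀ u v, E u v = 1 → G.Adj u v := by
    intro u v huv
    by_contra hn
    have := hE.supp u v hn
    omega
  -- `a` is reachable from `b`
  have hreach : Relation.ReflTransGen R b a := by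
    set S : Finset V := univ.filter (fun y => Relation.ReflTransGen R b y) with hS
    by_contra hcon
    have haS : a ∈ Sᶜ := by simpa [hS] using hcon
    have hbS : b ∈ S := by simp [hS, Relation.ReflTransGen.refl]
    have hcut : ∑ u ∈ S, ∑ v ∈ Sᶜ, E u v = 0 := by
      rw [← sum_cut E hE.anti hE.diag S]
      exact Finset.sum_eq_zero fun u _ => hE.cons u
    have hle : ∀ u ∈ S, ∀ v ∈ Sᶜ, E u v ≤ 0 := by
      intro u hu v hv
      by_contra hc
      push Not at hc
      have h2 : E u v = 1 := le_antisymm (h1 u v) hc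
      rw [Finset.mem_compl] at hv
      apply hv
      simp only [hS, mem_filter, mem_univ, true_and] at hu ⊢
      exact hu.tail h2
    have hneg : ∑ u ∈ S, ∑ v ∈ Sᶜ, E u v < 0 := by
      refine Finset.sum_neg' (fun u hu => Finset.sum_nonpos fun v hv => hle u hu v hv)
        ⟨b, hbS, ?_⟩
      refine Finset.sum_neg' (fun v hv => hle b hbS v hv) ⟨a, haS, ?_⟩
      have := hE.anti b a
      omega
    omega
  obtain ⟨w, hp, hw⟩ := exists_path R hreach
  have hle : SimpleGraph.fromRel R ≤ G := by
    intro u v huv
    rw [SimpleGraph.fromRel_adj] at huv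
    rcases huv.2 with h | h
    · exact hEadj u v h
    · exact (hEadj v u h).symm
  set w' : G.Walk b a := w.mapLe hle with hw'
  have hpath : w'.IsPath := (SimpleGraph.Walk.isPath_mapLe hle).mpr hp
  have hdarts : ∀ d ∈ w'.darts, E d.fst d.snd = 1 := by
    intro d hd
    rw [hw', SimpleGraph.Walk.mapLe, SimpleGraph.Walk.darts_map] at hd
    obtain ⟨d', hd', rfl⟩ := List.mem_map.mp hd
    exact hw d' hd'
  have hnot : ∀ d ∈ w'.darts, d.toProd ≠ (a, b) := by
    intro d hd hd2
    have hsnd : d.snd = b := congrArg Prod.snd hd2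
    have h2 : d.snd ∈ w'.support.tail := by
      rw [← SimpleGraph.Walk.map_snd_darts]
      exact List.mem_map.mpr ⟨d, hd, rfl⟩
    have h3 := hpath.support_nodup
    rw [← SimpleGraph.Walk.cons_tail_support, List.nodup_cons] at h3
    exact h3.1 (hsnd ▸ h2)
  refine ⟨SimpleGraph.Walk.cons (hEadj a b hab) w', ?_, ?_, ?_⟩
  · rw [SimpleGraph.Walk.cons_isCycle_iff]
    refine ⟨hpath, ?_⟩
    intro hmem
    rw [SimpleGraph.Walk.edges, List.mem_map] at hmem
    obtain ⟨d, hd, hd2⟩ := hmem
    have hd3 : s(d.fst, d.snd) = s(a, b) := hd2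
    rw [Sym2.eq_iff] at hd3
    rcases hd3 with ⟨e1, e2⟩ | ⟨e1, e2⟩
    · exact hnot d hd (Prod.ext e1 e2)
    · have h4 := hdarts d hd
      rw [e1, e2] at h4
      have := hE.anti a b
      omega
  · intro d hd
    rw [SimpleGraph.Walk.darts_cons, List.mem_cons] at hd
    rcases hd with rfl | hd
    · exact hab
    · exact hdarts d hd
  · rw [SimpleGraph.Walk.darts_cons, List.countP_cons]
    have h5 : w'.darts.countP (fun d => decide (d.toProd = (a, b))) = 0 := by
      rw [List.countP_eq_zero]
      intro d hd
      simpa using hnot d hd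
    rw [h5]
    simp

theorem cycles_aux {G : SimpleGraph V} : ∀ (N : ℕ) (E : V → V → ℤ), IsFlow G E →
    (∀ u v, E u v ≤ 1) → (univ.filter (fun q : V × V => E q.1 q.2 = 1)).card = N →
    ∃ C : List (Σ v : V, G.Walk v v), (∀ c ∈ C, c.2.IsCycle) ∧
      ∀ u v, arcCount C u v = if E u v = 1 then 1 else 0 := by
  intro N
  induction N using Nat.strong_induction_on with
  | _ N ih =>
  intro E hE h1 hN
  by_cases hz : ∃ a b, E a b = 1
  · obtain ⟨a, b, hab⟩ := hz
    obtain ⟨c, hc, hcd, hcab⟩ := exists_cycle E hE h1 hab
    have hnd : c.darts.Nodup := by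
      have := hc.isTrail.edges_nodup
      exact List.Nodup.of_map _ this
    set E' : V → V → ℤ := fun u v => E u v - wf c u v with hE'
    have hcount : ∀ u v, c.darts.countP (fun d => decide (d.toProd = (u, v))) = 0 ∨
        (c.darts.countP (fun d => decide (d.toProd = (u, v))) = 1 ∧ E u v = 1) := by
      intro u v
      by_cases h0 : c.darts.countP (fun d => decide (d.toProd = (u, v))) = 0
      · left; exact h0
      · right
        refine ⟨by have := countP_dart_le_one c hnd u v; omega, ?_⟩
        have h2 : 0 < c.darts.countP (fun d => decide (d.toProd = (u, v))) := by omega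
        rw [List.countP_pos_iff] at h2
        obtain ⟨d, hd, hd2⟩ := h2
        have h3 : d.toProd = (u, v) := by simpa using hd2
        have h4 := hcd d hd
        have e1 : d.fst = u := congrArg Prod.fst h3
        have e2 : d.snd = v := congrArg Prod.snd h3
        rwa [e1, e2] at h4
    have hwf : ∀ u v, (wf c u v = 0 ∧ c.darts.countP (fun d => decide (d.toProd = (u, v))) = 0) ∨
        (wf c u v = 1 ∧ E u v = 1 ∧ c.darts.countP (fun d => decide (d.toProd = (u, v))) = 1) ∨
        (wf c u v = -1 ∧ E u v = -1 ∧
          c.darts.countP (fun d => decide (d.toProd = (u, v))) = 0) := by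
      intro u v
      have h2 := hE.anti u v
      unfold wf
      rcases hcount u v with h | ⟨h, h'⟩ <;> rcases hcount v u with h3 | ⟨h3, h3'⟩
      · left; rw [h, h3]; simp
      · right; right; rw [h, h3]; refine ⟨by simp, by omega, rfl⟩
      · right; left; rw [h, h3]; refine ⟨by simp, h', rfl⟩
      · omega
    have hE'flow : IsFlow G E' := by
      constructor
      · intro u v
        simp only [hE']
        rw [hE.anti u v, wf_anti c u v]
        ring
      · intro u v huv
        simp only [hE']
        have := hE.supp u v huv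
        rcases hwf u v with h | h | h <;> omega
      · intro u
        rw [hE', Finset.sum_sub_distrib, hE.cons, sum_wf]
        simp
    have hE'le : ∀ u v, E' u v ≤ 1 := by
      intro u v
      simp only [hE']
      have := h1 u v
      rcases hwf u v with h | h | h <;> omega
    obtain ⟨C, hC, hC2⟩ := ih _ (by
      rw [← hN]
      apply Finset.card_lt_card
      rw [Finset.ssubset_iff_of_subset]
      · refine ⟨(a, b), by simpa using hab, ?_⟩
        simp only [mem_filter, mem_univ, true_and, hE']
        rcases hwf a b with h | h | h <;> omega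
      · intro q hq
        simp only [mem_filter, mem_univ, true_and, hE'] at hq ⊢
        rcases hwf q.1 q.2 with h | h | h <;> omega) E' hE'flow hE'le rfl
    refine ⟨⟨a, c⟩ :: C, ?_, ?_⟩
    · intro x hx
      rcases List.mem_cons.mp hx with rfl | hx
      · exact hc
      · exact hC x hx
    · intro u v
      rw [arcCount_cons, hC2 u v]
      simp only [hE']
      rcases hwf u v with ⟨h, h'⟩ | ⟨h, h', h''⟩ | ⟨h, h', h''⟩
      · rw [h, h']; simp
      · rw [h, h', h'']; simp
      · rw [h, h', h'']; simp
  · push Not at hz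
    refine ⟨[], by simp, ?_⟩
    intro u v
    rw [arcCount_nil, if_neg (hz u v)]

/-- **Cycle decomposition**: a flow with values in `{-1,0,1}` is the sum of directed cycles. -/
theorem cycles_of_flow {G : SimpleGraph V} (E : V → V → ℤ) (hE : IsFlow G E)
    (h1 : ∀ u v, E u v ≤ 1) :
    ∃ C : List (Σ v : V, G.Walk v v), (∀ c ∈ C, c.2.IsCycle) ∧
      ∀ u v, arcCount C u v = if E u v = 1 then 1 else 0 :=
  cycles_aux _ E hE h1 rfl

/-- The same for a list of flows. -/
theorem cycles_of_flows {G : SimpleGraph V} (L : List (V → V → ℤ))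
    (hL : ∀ E ∈ L, IsFlow G E ∧ ∀ u v, E u v ≤ 1) :
    ∃ C : List (Σ v : V, G.Walk v v), (∀ c ∈ C, c.2.IsCycle) ∧
      ∀ u v, arcCount C u v = (L.map (fun E => if E u v = 1 then 1 else 0)).sum := by
  induction L with
  | nil => exact ⟨[], by simp, fun u v => by simp [arcCount_nil]⟩
  | cons E L ih =>
    obtain ⟨C, hC, hC2⟩ := ih (fun E hE => hL E (List.mem_cons_of_mem _ hE))
    obtain ⟨D, hD, hD2⟩ := cycles_of_flow E (hL E List.mem_cons_self).1
      (hL E List.mem_cons_self).2
    refine ⟨D ++ C, ?_, ?_⟩
    · intro x hx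
      rcases List.mem_append.mp hx with h | h
      · exact hD x h
      · exact hC x h
    · intro u v
      rw [arcCount_append, hC2, hD2, List.map_cons, List.sum_cons]

end Pool.Agent.H46.Flow
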