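import Pool.Agent.H46.Flow.Basic

/-!
# Oriented covers from flows

From a `ZMod 2`-flow `f2` and a `ZMod 3`-flow `f3` without common zero on the edges (Seymour's
6-flow theorem) we get, for every `t ≥ 3`, a list of directed cycles using every arc exactly `t`
times.
-/

set_option autoImplicit false
set_option linter.unusedSectionVars false
open scoped Classical
open Finset

namespace Pool.Agent.H46.Flow

variable {V : Type} [Fintype V] {G : SimpleGraph V}

/-- There is a list of `{-1,0,1}`-flows using every arc `(u, v)` exactly `t u v` times. -/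
def HasCover (G : SimpleGraph V) (t : V → V → ℕ) : Prop :=
  ∃ L : List (V → V → ℤ), (∀ E ∈ L, IsFlow G E ∧ ∀ u v, E u v ≤ 1) ∧
    ∀ u v, G.Adj u v → (L.map (fun E => if E u v = 1 then 1 else 0)).sum = t u v

theorem HasCover.add {s t : V → V → ℕ} (hs : HasCover G s) (ht : HasCover G t) :
    HasCover G (fun u v => s u v + t u v) := by
  obtain ⟨L, hL, hL2⟩ := hs
  obtain ⟨M, hM, hM2⟩ := ht
  refine ⟨L ++ M, ?_, ?_⟩
  · intro E hE
    rcases List.mem_append.mp hE with h | h
    · exact hL E h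
    · exact hM E h
  · intro u v huv
    rw [List.map_append, List.sum_append, hL2 u v huv, hM2 u v huv]

theorem HasCover.congr {s t : V → V → ℕ} (hs : HasCover G s)
    (h : ∀ u v, G.Adj u v → s u v = t u v) : HasCover G t := by
  obtain ⟨L, hL, hL2⟩ := hs
  exact ⟨L, hL, fun u v huv => (hL2 u v huv).trans (h u v huv)⟩

theorem HasCover.toCycles {t : V → V → ℕ} (ht : HasCover G t) :
    ∃ C : List (Σ v : V, G.Walk v v), (∀ c ∈ C, c.2.IsCycle) ∧
      ∀ u v, G.Adj u v → arcCount C u v = t u v := by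
  obtain ⟨L, hL, hL2⟩ := ht
  obtain ⟨C, hC, hC2⟩ := cycles_of_flows L hL
  exact ⟨C, hC, fun u v huv => (hC2 u v).trans (hL2 u v huv)⟩

/-! ### Casts and halves of integer flows -/

theorem IsFlow.cast {g : V → V → ℤ} (hg : IsFlow G g) (n : ℕ) :
    IsFlow G (fun u v => (g u v : ZMod n)) where
  anti u v := by rw [hg.anti u v]; push_cast; rfl
  supp u v h := by rw [hg.supp u v h]; simp
  cons u := by
    have := congrArg (fun z : ℤ => (z : ZMod n)) (hg.cons u)
    push_cast at this
    exact this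

theorem IsFlow.half {g : V → V → ℤ} (hg : IsFlow G g) (h : ∀ u v, g u v % 2 = 0) :
    IsFlow G (fun u v => g u v / 2) where
  anti u v := by
    have h1 := hg.anti u v
    have h2 := h u v
    have h3 := h v u
    omega
  supp u v hh := by rw [hg.supp u v hh]; simp
  cons u := by
    have h1 : ∑ v, 2 * (g u v / 2) = 0 := by
      rw [← hg.cons u]
      refine Finset.sum_congr rfl fun v _ => ?_
      have := h u v
      omega
    rw [← Finset.mul_sum] at h1
    omega

theorem cast2_ne {a : ℤ} : ((a : ZMod 2) ≠ 0) ↔ a % 2 = 1 := by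
  rw [Ne, ZMod.intCast_zmod_eq_zero_iff_dvd]
  push_cast
  omega

theorem cast2_eq {a b : ℤ} (h : (a : ZMod 2) = (b : ZMod 2)) : (a - b) % 2 = 0 := by
  have h1 : ((a - b : ℤ) : ZMod 2) = 0 := by push_cast; rw [h, sub_self]
  rw [ZMod.intCast_zmod_eq_zero_iff_dvd] at h1
  push_cast at h1
  omega

theorem cast3_ne {a : ℤ} : ((a : ZMod 3) ≠ 0) ↔ a % 3 ≠ 0 := by
  rw [Ne, ZMod.intCast_zmod_eq_zero_iff_dvd]
  push_cast
  omega

/-- The support of a `ZMod 3`-flow is the union of the supports of two `ZMod 2`-flows. -/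
theorem three_to_four (f : V → V → ZMod 3) (hf : IsFlow G f) :
    ∃ k1 k2 : V → V → ZMod 2, IsFlow G k1 ∧ IsFlow G k2 ∧
      ∀ u v, f u v ≠ 0 ↔ (k1 u v ≠ 0 ∨ k2 u v ≠ 0) := by
  obtain ⟨g, hg, hgf, hlt⟩ := tutte (by norm_num) f hf
  obtain ⟨h, hh, hhg, hhlt⟩ := tutte (by norm_num) _ (hg.cast 2)
  have hev : ∀ u v, (g u v + h u v) % 2 = 0 := by
    intro u v
    have := cast2_eq (hhg u v)
    omega
  have hq := (hg.add hh).half hev
  refine ⟨_, _, hg.cast 2, hq.cast 2, ?_⟩
  intro u v
  rw [← hgf u v, cast3_ne, cast2_ne, cast2_ne]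
  have e1 := hg.anti u v
  have e2 := hh.anti u v
  have l1 := hlt u v
  have l2 := hlt v u
  have l3 := hhlt u v
  have l4 := hhlt v u
  have e3 := hev u v
  push_cast at l1 l2 l3 l4
  omega

/-- **Oriented double cover**: the union of the supports of two `ZMod 2`-flows has an oriented
double cover. -/
theorem odc (k1 k2 : V → V → ZMod 2) (h1 : IsFlow G k1) (h2 : IsFlow G k2) :
    HasCover G (fun u v => if (k1 u v ≠ 0 ∨ k2 u v ≠ 0) then 1 else 0) := by
  obtain ⟨F1, hF1, c1, l1⟩ := tutte (by norm_num) k1 h1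
  obtain ⟨F2, hF2, c2, l2⟩ := tutte (by norm_num) k2 h2
  obtain ⟨F3, hF3, c3, l3⟩ := tutte (by norm_num) _ (h1.add h2)
  have hpar : ∀ u v, (F1 u v + F2 u v + F3 u v) % 2 = 0 := by
    intro u v
    have h5 : ((F3 u v : ℤ) : ZMod 2) = ((F1 u v + F2 u v : ℤ) : ZMod 2) := by
      rw [c3 u v]; push_cast; rw [c1, c2]
    have := cast2_eq h5
    omega
  have b : ∀ u v, (F1 u v ≤ 1 ∧ -1 ≤ F1 u v) ∧ (F2 u v ≤ 1 ∧ -1 ≤ F2 u v) ∧
      (F3 u v ≤ 1 ∧ -1 ≤ F3 u v) := by
    intro u v
    have e1 := hF1.anti u v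
    have e2 := hF2.anti u v
    have e3 := hF3.anti u v
    have := l1 u v; have := l1 v u; have := l2 u v; have := l2 v u
    have := l3 u v; have := l3 v u
    push_cast at *
    omega
  have q1 : IsFlow G (fun u v => (F1 u v + F2 u v + F3 u v) / 2) :=
    ((hF1.add hF2).add hF3).half hpar
  have q2 : IsFlow G (fun u v => (F1 u v - F2 u v - F3 u v) / 2) :=
    ((hF1.sub hF2).sub hF3).half (fun u v => by have := hpar u v; omega)
  have q3 : IsFlow G (fun u v => (F2 u v - F1 u v - F3 u v) / 2) :=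
    ((hF2.sub hF1).sub hF3).half (fun u v => by have := hpar u v; omega)
  have q4 : IsFlow G (fun u v => (F3 u v - F1 u v - F2 u v) / 2) :=
    ((hF3.sub hF1).sub hF2).half (fun u v => by have := hpar u v; omega)
  have bb : ∀ u v, ((F1 u v + F2 u v + F3 u v) / 2 ≤ 1 ∧ (F1 u v - F2 u v - F3 u v) / 2 ≤ 1) ∧
      ((F2 u v - F1 u v - F3 u v) / 2 ≤ 1 ∧ (F3 u v - F1 u v - F2 u v) / 2 ≤ 1) := by
    intro u v
    obtain ⟨⟨a1, a2⟩, ⟨a3, a4⟩, ⟨a5, a6⟩⟩ := b u v
    have hp := hpar u v
    omega
  refine ⟨[fun u v => (F1 u v + F2 u v + F3 u v) / 2, fun u v => (F1 u v - F2 u v - F3 u v) / 2,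
    fun u v => (F2 u v - F1 u v - F3 u v) / 2, fun u v => (F3 u v - F1 u v - F2 u v) / 2], ?_, ?_⟩
  · intro E hE
    simp only [List.mem_cons, List.not_mem_nil, or_false] at hE
    rcases hE with rfl | rfl | rfl | rfl
    · exact ⟨q1, fun u v => (bb u v).1.1⟩
    · exact ⟨q2, fun u v => (bb u v).1.2⟩
    · exact ⟨q3, fun u v => (bb u v).2.1⟩
    · exact ⟨q4, fun u v => (bb u v).2.2⟩
  · intro u v _
    beta_reduce
    rw [← c1 u v, ← c2 u v]
    simp only [cast2_ne, List.map_cons, List.map_nil, List.sum_cons, List.sum_nil]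
    obtain ⟨⟨a1, a2⟩, ⟨a3, a4⟩, ⟨a5, a6⟩⟩ := b u v
    have hp := hpar u v
    split_ifs <;> omega

theorem odc_single (k : V → V → ZMod 2) (h : IsFlow G k) :
    HasCover G (fun u v => if k u v ≠ 0 then 1 else 0) :=
  (odc k _ h IsFlow.zero).congr (fun u v _ => by simp)

theorem odc_three (f : V → V → ZMod 3) (hf : IsFlow G f) :
    HasCover G (fun u v => if f u v ≠ 0 then 1 else 0) := by
  obtain ⟨k1, k2, h1, h2, h⟩ := three_to_four f hf
  exact (odc k1 k2 h1 h2).congr (fun u v _ => by simp only [h u v])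

section six

variable (f2 : V → V → ZMod 2) (f3 : V → V → ZMod 3) (h2 : IsFlow G f2) (h3 : IsFlow G f3)
  (hnz : ∀ u v, G.Adj u v → f2 u v ≠ 0 ∨ f3 u v ≠ 0)

include h2 h3 hnz

theorem cover_three_aux : HasCover G
    (fun u v => if f2 u v ≠ 0 then 2 - (if f3 u v ≠ 0 then 1 else 0) else 2) := by
  obtain ⟨a, ha, hac, hal⟩ := tutte (by norm_num) f2 h2
  have hS := odc_three _ (h3.add (ha.cast 3))
  have hS' := odc_three _ (h3.sub (ha.cast 3))
  refine (hS.add hS').congr ?_
  intro u v huv
  have h := hnz u v huv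
  have e := ha.anti u v
  have l1 := hal u v
  have l2 := hal v u
  rw [← hac u v] at h ⊢
  have hcase : a u v = 0 ∨ a u v = 1 ∨ a u v = -1 := by push_cast at l1 l2; omega
  rcases hcase with h0 | h0 | h0
  · rw [h0] at h ⊢
    generalize f3 u v = z at *
    revert h
    revert z
    decide
  · rw [h0] at h ⊢
    generalize f3 u v = z at *
    revert h
    revert z
    decide
  · rw [h0] at h ⊢
    generalize f3 u v = z at *
    revert h
    revert z
    decide

theorem cover_three : HasCover G (fun _ _ => 3) := by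
  refine (((cover_three_aux f2 f3 h2 h3 hnz).add (odc_three _ h3)).add (odc_single _ h2)).congr ?_
  intro u v huv
  have h := hnz u v huv
  by_cases h4 : f2 u v = 0 <;> by_cases h5 : f3 u v = 0 <;> simp_all

theorem cover_four : HasCover G (fun _ _ => 4) := by
  obtain ⟨k1, k2, hk1, hk2, hk⟩ := three_to_four f3 h3
  have a1 := odc_single _ h2
  have a2 := odc_single _ hk1
  have a3 := odc_single _ hk2
  have a4 := odc_single _ (hk1.add hk2)
  have a5 := odc_single _ (h2.add hk1)
  have a6 := odc_single _ (h2.add hk2)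
  have a7 := odc_single _ ((h2.add hk1).add hk2)
  refine ((((((a1.add a2).add a3).add a4).add a5).add a6).add a7).congr ?_
  intro u v huv
  have h := hnz u v huv
  rw [hk u v] at h
  generalize f2 u v = x at *
  generalize k1 u v = y at *
  generalize k2 u v = z at *
  revert h
  revert x y z
  decide

theorem cover_five : HasCover G (fun _ _ => 5) := by
  obtain ⟨k1, k2, hk1, hk2, hk⟩ := three_to_four f3 h3
  have a1 := odc _ _ h2 hk1
  have a2 := odc _ _ h2 hk2
  have a3 := odc _ _ h2 (hk1.add hk2)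
  have a4 := odc_three _ h3
  have a5 := cover_three_aux f2 f3 h2 h3 hnz
  refine ((((a1.add a2).add a3).add a4).add a5).congr ?_
  intro u v huv
  have h := hnz u v huv
  have h' := hk u v
  generalize f2 u v = x at *
  generalize f3 u v = w at *
  generalize k1 u v = y at *
  generalize k2 u v = z at *
  revert h h'
  revert x y z w
  decide

theorem cover_ge_three : ∀ t : ℕ, 3 ≤ t → HasCover G (fun _ _ => t) := by
  intro t
  induction t using Nat.strong_induction_on with
  | _ t ih =>
  intro ht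
  rcases Nat.lt_or_ge t 6 with h | h
  · interval_cases t
    · exact cover_three f2 f3 h2 h3 hnz
    · exact cover_four f2 f3 h2 h3 hnz
    · exact cover_five f2 f3 h2 h3 hnz
  · refine ((ih (t - 3) (by omega) (by omega)).add (cover_three f2 f3 h2 h3 hnz)).congr ?_
    intro u v _
    omega

end six

end Pool.Agent.H46.Flow
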