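import Pool.Agent.H46.Flow.Basic

/-!
# Seymour's 6-flow theorem

Every bridgeless finite simple graph has a `ZMod 2`-flow and a `ZMod 3`-flow without common zero
on the edges.
-/

set_option autoImplicit false
set_option linter.unusedSectionVars false
open scoped Classical
open Finset

namespace Pool.Agent.H46.Flow

variable {V : Type} [Fintype V]

/-- The arcs of `G` from `A` to `B`. -/
noncomputable def cutE (G : SimpleGraph V) (A B : Finset V) : Finset (V × V) :=
  (A ×ˢ B).filter (fun q => G.Adj q.1 q.2)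

theorem mem_cutE {G : SimpleGraph V} {A B : Finset V} {q : V × V} :
    q ∈ cutE G A B ↔ (q.1 ∈ A ∧ q.2 ∈ B) ∧ G.Adj q.1 q.2 := by
  simp [cutE]

theorem card_cutE_comm (G : SimpleGraph V) (A B : Finset V) :
    (cutE G A B).card = (cutE G B A).card := by
  refine Finset.card_bij (fun q _ => q.swap) ?_ ?_ ?_
  · intro q hq
    rw [mem_cutE] at hq ⊢
    exact ⟨⟨hq.1.2, hq.1.1⟩, hq.2.symm⟩
  · intro q _ r _ h
    exact Prod.swap_injective h
  · intro q hq
    rw [mem_cutE] at hq
    refine ⟨q.swap, ?_, by simp⟩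
    rw [mem_cutE]
    exact ⟨⟨hq.1.2, hq.1.1⟩, hq.2.symm⟩

theorem flow_cut {G : SimpleGraph V} {R : Type} [AddCommGroup R] {f : V → V → R}
    (hf : IsFlow G f) (X : Finset V) : ∑ q ∈ cutE G X Xᶜ, f q.1 q.2 = 0 := by
  have h1 : ∑ u ∈ X, ∑ v ∈ Xᶜ, f u v = 0 := by
    rw [← sum_cut f hf.anti hf.diag X]
    exact Finset.sum_eq_zero fun u _ => hf.cons u
  rw [← h1, ← Finset.sum_product', cutE, Finset.sum_filter]
  refine Finset.sum_congr rfl fun q _ => ?_
  split_ifs with h
  · rfl
  · exact (hf.supp _ _ h).symm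

/-- The bridgeless condition. -/
def Bridgeless (G : SimpleGraph V) : Prop :=
  ∀ u v : V, G.Adj u v → (G.deleteEdges {s(u, v)}).Reachable u v

theorem exists_cross {H : SimpleGraph V} (X : Finset V) {a b : V} (h : H.Reachable a b)
    (ha : a ∈ X) (hb : b ∉ X) : ∃ c d, c ∈ X ∧ d ∉ X ∧ H.Adj c d := by
  obtain ⟨w⟩ := h
  induction w with
  | nil => exact absurd ha hb
  | @cons u v w huv p ih =>
    by_cases hv : v ∈ X
    · exact ih hv hb
    · exact ⟨u, v, ha, hv, huv⟩

theorem Bridgeless.card_ne_one {G : SimpleGraph V} (hb : Bridgeless G) (X : Finset V) :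
    (cutE G X Xᶜ).card ≠ 1 := by
  intro h
  rw [Finset.card_eq_one] at h
  obtain ⟨⟨a, b⟩, hab⟩ := h
  have h1 : (a, b) ∈ cutE G X Xᶜ := by rw [hab]; exact mem_singleton_self _
  rw [mem_cutE, mem_compl] at h1
  obtain ⟨c, d, hc, hd, hcd⟩ := exists_cross X (hb a b h1.2) h1.1.1 h1.1.2
  rw [SimpleGraph.deleteEdges_adj] at hcd
  have h2 : (c, d) ∈ cutE G X Xᶜ := by
    rw [mem_cutE, mem_compl]
    exact ⟨⟨hc, hd⟩, hcd.1⟩
  rw [hab, mem_singleton, Prod.mk.injEq] at h2
  apply hcd.2
  rw [h2.1, h2.2]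
  exact rfl

/-! ### Two edge-disjoint paths -/

theorem two_paths {G : SimpleGraph V} (X : Finset V) {x1 x2 : V} (h1 : x1 ∈ X)
    (hX : ∀ S ⊆ X, x1 ∈ S → x2 ∉ S → 2 ≤ (cutE G S (X \ S)).card) :
    ∃ φ : V → V → ℤ, (∀ u v, φ u v = - φ v u) ∧ (∀ u v, φ u v ≤ 1) ∧
      (∀ u v, φ u v ≠ 0 → G.Adj u v ∧ u ∈ X ∧ v ∈ X) ∧
      ∀ u, ∑ v, φ u v = 2 * ((if u = x1 then 1 else 0) - (if u = x2 then 1 else 0)) := by
  set R0 : V → V → Prop := fun u v => G.Adj u v ∧ u ∈ X ∧ v ∈ X with hR0
  have reachX : ∀ (R : V → V → Prop), (∀ u v, R u v → R0 u v) → ∀ y,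
      Relation.ReflTransGen R x1 y → y ∈ X := by
    intro R hR y hy
    induction hy with
    | refl => exact h1
    | tail _ hbc _ => exact (hR _ _ hbc).2.2
  have hr0 : Relation.ReflTransGen R0 x1 x2 := by
    by_contra hcon
    set S : Finset V := univ.filter (fun y => Relation.ReflTransGen R0 x1 y) with hS
    have hSX : S ⊆ X := by
      intro y hy
      simp only [hS, mem_filter, mem_univ, true_and] at hy
      exact reachX R0 (fun _ _ h => h) y hy
    have h2 := hX S hSX (by simp [hS, Relation.ReflTransGen.refl]) (by simpa [hS] using hcon)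
    have h3 : cutE G S (X \ S) = ∅ := by
      rw [Finset.eq_empty_iff_forall_notMem]
      intro q hq
      rw [mem_cutE, mem_sdiff] at hq
      apply hq.1.2.2
      have hq1 := hq.1.1
      simp only [hS, mem_filter, mem_univ, true_and] at hq1 ⊢
      exact hq1.tail ⟨hq.2, reachX R0 (fun _ _ h => h) _ hq1, hq.1.2.1⟩
    rw [h3] at h2
    simp at h2
  obtain ⟨p1, a1, l1, r1, s1⟩ := exists_unit R0 hr0
  set R1 : V → V → Prop := fun u v => R0 u v ∧ p1 u v ≤ 0 with hR1
  have p1supp : ∀ u v, p1 u v ≠ 0 → R0 u v := by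
    intro u v huv
    rcases lt_or_gt_of_ne huv with h | h
    · have := a1 u v
      have h5 := r1 v u (by omega)
      exact ⟨h5.1.symm, h5.2.2, h5.2.1⟩
    · exact r1 u v h
  have hr1 : Relation.ReflTransGen R1 x1 x2 := by
    by_contra hcon
    set S : Finset V := univ.filter (fun y => Relation.ReflTransGen R1 x1 y) with hS
    have hSX : S ⊆ X := by
      intro y hy
      simp only [hS, mem_filter, mem_univ, true_and] at hy
      exact reachX R1 (fun _ _ h => h.1) y hy
    have hx1S : x1 ∈ S := by simp [hS, Relation.ReflTransGen.refl]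
    have hx2S : x2 ∉ S := by simpa [hS] using hcon
    have h2 := hX S hSX hx1S hx2S
    have hcross : ∀ u ∈ S, ∀ v ∉ S, R0 u v → p1 u v = 1 := by
      intro u hu v hv huv
      by_contra hne
      apply hv
      simp only [hS, mem_filter, mem_univ, true_and] at hu ⊢
      refine hu.tail ⟨huv, ?_⟩
      have := l1 u v
      omega
    have hsum : ∑ u ∈ S, ∑ v, p1 u v = 1 := by
      simp_rw [s1]
      rw [Finset.sum_sub_distrib]
      simp [hx1S, hx2S]
    have hdiag : ∀ u, p1 u u = 0 := fun u => by have := a1 u u; omega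
    rw [sum_cut p1 a1 hdiag S] at hsum
    have hcard : ∑ u ∈ S, ∑ v ∈ Sᶜ, p1 u v = ((cutE G S (X \ S)).card : ℤ) := by
      rw [← Finset.sum_product', Finset.card_eq_sum_ones]
      push_cast
      rw [cutE, Finset.sum_filter]
      have hsub : S ×ˢ (X \ S) ⊆ S ×ˢ Sᶜ := by
        intro q hq
        rw [mem_product, mem_sdiff] at hq
        rw [mem_product, mem_compl]
        exact ⟨hq.1, hq.2.2⟩
      rw [← Finset.sum_subset hsub]
      · refine Finset.sum_congr rfl fun q hq => ?_
        rw [mem_product, mem_sdiff] at hq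
        split_ifs with hadj
        · exact hcross q.1 hq.1 q.2 hq.2.2 ⟨hadj, hSX hq.1, hq.2.1⟩
        · by_contra hne
          exact hadj (p1supp _ _ hne).1
      · intro q hq hq2
        rw [mem_product, mem_compl] at hq
        rw [mem_product, mem_sdiff] at hq2
        by_contra hne
        exact hq2 ⟨hq.1, (p1supp _ _ hne).2.2, hq.2⟩
    omega
  obtain ⟨p2, a2, l2, r2, s2⟩ := exists_unit R1 hr1
  refine ⟨fun u v => p1 u v + p2 u v, ?_, ?_, ?_, ?_⟩
  · intro u v
    beta_reduce
    rw [a1 u v, a2 u v]; ring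
  · intro u v
    beta_reduce
    have h3 := l1 u v
    have h4 := l2 u v
    by_cases h5 : 0 < p2 u v
    · have h6 := (r2 u v h5).2
      omega
    · omega
  · intro u v huv
    by_cases h5 : p1 u v = 0
    · have h6 : p2 u v ≠ 0 := by intro h; apply huv; simp [h5, h]
      rcases lt_or_gt_of_ne h6 with h | h
      · have := a2 u v
        have h7 := (r2 v u (by omega)).1
        exact ⟨h7.1.symm, h7.2.2, h7.2.1⟩
      · exact (r2 u v h).1
    · exact p1supp u v h5
  · intro u
    rw [Finset.sum_add_distrib, s1, s2]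
    ring

/-! ### Unit flows in symmetric relations -/

theorem exists_unit' (K : V → V → Prop) (hK : ∀ u v, K u v → K v u) {x y : V}
    (h : Relation.ReflTransGen K x y) :
    ∃ p : V → V → ℤ, (∀ u v, p u v = - p v u) ∧ (∀ u v, p u v ≠ 0 → K u v) ∧
      ∀ u, ∑ v, p u v = (if u = x then 1 else 0) - (if u = y then 1 else 0) := by
  obtain ⟨p, a, l, r, s⟩ := exists_unit K h
  refine ⟨p, a, ?_, s⟩
  intro u v huv
  rcases lt_or_gt_of_ne huv with h | h
  · have := a u v
    exact hK _ _ (r v u (by omega))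
  · exact r u v h

/-- The unit flow on a single arc. -/
noncomputable def arc (a b u v : V) : ℤ := (if u = a ∧ v = b then 1 else 0) - (if u = b ∧ v = a then 1 else 0)

theorem arc_anti (a b u v : V) : arc a b u v = - arc a b v u := by
  unfold arc
  simp only [and_comm (a := v = a), and_comm (a := v = b)]
  ring

theorem arc_self {a b : V} (h : a ≠ b) : arc a b a b = 1 := by
  simp [arc, h]

theorem arc_ne {a b u v : V} (h : arc a b u v ≠ 0) : (u = a ∧ v = b) ∨ (u = b ∧ v = a) := by
  by_contra hcon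
  push Not at hcon
  apply h
  unfold arc
  rw [if_neg (fun h => hcon.1 h.1 h.2), if_neg (fun h => hcon.2 h.1 h.2), sub_zero]

theorem arc_sum (a b u : V) :
    ∑ v, arc a b u v = (if u = a then 1 else 0) - (if u = b then 1 else 0) := by
  unfold arc
  rw [Finset.sum_sub_distrib]
  have h1 : ∀ c d : V, ∑ v, (if u = c ∧ v = d then (1 : ℤ) else 0) = if u = c then 1 else 0 := by
    intro c d
    by_cases h : u = c
    · simp [h]
    · simp [h]
  rw [h1, h1]

theorem IsFlow.smulZ3 {G : SimpleGraph V} {c : V → V → ℤ} (hc : IsFlow G c) (s : ZMod 3) :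
    IsFlow G (fun u v => s * (c u v : ZMod 3)) where
  anti u v := by rw [hc.anti u v]; push_cast; ring
  supp u v h := by rw [hc.supp u v h]; simp
  cons u := by
    rw [← Finset.mul_sum]
    have := congrArg (fun z : ℤ => (z : ZMod 3)) (hc.cons u)
    push_cast at this
    rw [this, mul_zero]

theorem fix_edges {G : SimpleGraph V} (K T : V → V → Prop)
    (hKs : ∀ u v, K u v → K v u) (hKG : ∀ u v, K u v → G.Adj u v)
    (hTG : ∀ u v, T u v → G.Adj u v) (hTs : ∀ u v, T u v → T v u)
    (hKT : ∀ u v, K u v → ¬ T u v) (hconn : ∀ u v, T u v → Relation.ReflTransGen K u v) :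
    ∀ (N : ℕ) (f : V → V → ZMod 3), IsFlow G f →
      (univ.filter (fun q : V × V => T q.1 q.2 ∧ f q.1 q.2 = 0)).card = N →
      ∃ f' : V → V → ZMod 3, IsFlow G f' ∧ (∀ u v, ¬ K u v → ¬ T u v → f' u v = f u v) ∧
        (∀ u v, T u v → f' u v ≠ 0) := by
  intro N
  induction N using Nat.strong_induction_on with
  | _ N ih =>
  intro f hf hN
  by_cases hz : ∃ a b, T a b ∧ f a b = 0
  · obtain ⟨a, b, hab, hfab⟩ := hz
    have hne : a ≠ b := (hTG a b hab).ne
    obtain ⟨p, pa, pK, ps⟩ := exists_unit' K hKs (hconn b a (hTs a b hab))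
    have hc : IsFlow G (fun u v => arc a b u v + p u v) := by
      constructor
      · intro u v
        rw [arc_anti, pa u v]; ring
      · intro u v huv
        have h1 : arc a b u v = 0 := by
          by_contra h
          rcases arc_ne h with ⟨rfl, rfl⟩ | ⟨rfl, rfl⟩
          · exact huv (hTG _ _ hab)
          · exact huv (hTG _ _ hab).symm
        have h2 : p u v = 0 := by
          by_contra h
          exact huv (hKG _ _ (pK u v h))
        rw [h1, h2, add_zero]
      · intro u
        rw [Finset.sum_add_distrib, arc_sum, ps]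
        ring
    have hpT : ∀ u v, T u v → p u v = 0 := by
      intro u v huv
      by_contra h
      exact hKT u v (pK u v h) huv
    set f1 : V → V → ZMod 3 := fun u v => f u v + 1 * ((arc a b u v + p u v : ℤ) : ZMod 3) with hf1
    have hf1flow : IsFlow G f1 := hf.add (hc.smulZ3 1)
    have h1ab : f1 a b = 1 := by
      simp only [hf1]
      rw [hfab, hpT a b hab, arc_self hne]
      simp
    have h1ba : f1 b a ≠ 0 := by
      rw [hf1flow.anti, h1ab]
      decide
    have h1other : ∀ u v, T u v → ¬ (u = a ∧ v = b) → ¬ (u = b ∧ v = a) → f1 u v = f u v := by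
      intro u v huv h2 h3
      have h4 : arc a b u v = 0 := by
        by_contra h
        rcases arc_ne h with h5 | h5
        · exact h2 h5
        · exact h3 h5
      simp only [hf1]
      rw [h4, hpT u v huv]
      simp
    obtain ⟨f', hf', h2, h3⟩ := ih _ (by
      rw [← hN]
      apply Finset.card_lt_card
      rw [Finset.ssubset_iff_of_subset]
      · refine ⟨(a, b), by simpa using ⟨hab, hfab⟩, ?_⟩
        simp only [mem_filter, mem_univ, true_and, not_and]
        intro _
        rw [h1ab]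
        decide
      · intro q hq
        simp only [mem_filter, mem_univ, true_and] at hq ⊢
        refine ⟨hq.1, ?_⟩
        rw [← h1other q.1 q.2 hq.1, hq.2]
        · rintro ⟨e1, e2⟩
          have := hq.2
          rw [e1, e2, h1ab] at this
          exact absurd this (by decide)
        · rintro ⟨e1, e2⟩
          have := hq.2
          rw [e1, e2] at this
          exact h1ba this) f1 hf1flow rfl
    refine ⟨f', hf', ?_, h3⟩
    intro u v hK hT
    rw [h2 u v hK hT]
    have h4 : arc a b u v = 0 := by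
      by_contra h
      rcases arc_ne h with ⟨rfl, rfl⟩ | ⟨rfl, rfl⟩
      · exact hT hab
      · exact hT (hTs _ _ hab)
    have h5 : p u v = 0 := by
      by_contra h
      exact hK (pK u v h)
    simp only [hf1]
    rw [h4, h5]
    simp
  · push Not at hz
    exact ⟨f, hf, fun _ _ _ _ => rfl, hz⟩

/-! ### The induction -/

/-- Vertices of `W` in the same component of `G` are connected inside `W`. -/
def Conn (G : SimpleGraph V) (W : Finset V) : Prop :=
  ∀ u ∈ W, ∀ v ∈ W, G.Reachable u v →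
    Relation.ReflTransGen (fun a b => G.Adj a b ∧ a ∈ W ∧ b ∈ W) u v

/-- The induction statement. -/
def Q (G : SimpleGraph V) (W : Finset V) : Prop :=
  ∃ f2 : V → V → ZMod 2, ∃ f3 : V → V → ZMod 3, IsFlow G f2 ∧ IsFlow G f3 ∧
    (∀ u v, (u ∈ W ∨ v ∈ W) → f2 u v = 0) ∧
    (∀ u v, G.Adj u v → ¬ (u ∈ W ∧ v ∈ W) → f2 u v ≠ 0 ∨ f3 u v ≠ 0)

theorem rtg_symm {R : V → V → Prop} (hR : ∀ u v, R u v → R v u) {u v : V}
    (h : Relation.ReflTransGen R u v) : Relation.ReflTransGen R v u := by
  induction h with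
  | refl => exact Relation.ReflTransGen.refl
  | tail _ hbc ih => exact Relation.ReflTransGen.head (hR _ _ hbc) ih

theorem rtg_mono {R R' : V → V → Prop} (hR : ∀ u v, R u v → R' u v) {u v : V}
    (h : Relation.ReflTransGen R u v) : Relation.ReflTransGen R' u v := by
  induction h with
  | refl => exact Relation.ReflTransGen.refl
  | tail _ hbc ih => exact ih.tail (hR _ _ hbc)

theorem rtg_reachable {G : SimpleGraph V} {R : V → V → Prop} (hR : ∀ u v, R u v → G.Adj u v)
    {u v : V} (h : Relation.ReflTransGen R u v) : G.Reachable u v := by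
  induction h with
  | refl => exact SimpleGraph.Reachable.refl _
  | tail _ hbc ih => exact ih.trans (hR _ _ hbc).reachable

theorem exists_shift : ∀ A B : ZMod 3, ∃ s : ZMod 3, A + s ≠ 0 ∧ B + s ≠ 0 := by decide

theorem step_two {G : SimpleGraph V} (W Y : Finset V) (h : V → V → ZMod 2) {x1 x2 w1 w2 : V}
    (hWY : ∀ u, u ∈ W → u ∉ Y) (hh : IsFlow G h) (hhY : ∀ u v, h u v ≠ 0 → u ∈ Y ∧ v ∈ Y)
    (hx1 : x1 ∈ Y) (hx2 : x2 ∈ Y)
    (hYc : ∀ y ∈ Y, Relation.ReflTransGen (fun a b => h a b ≠ 0) x1 y)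
    (hw1 : w1 ∈ W) (hw2 : w2 ∈ W) (e1 : G.Adj x1 w1) (e2 : G.Adj x2 w2)
    (hne : (x1, w1) ≠ (x2, w2)) (hW : Conn G W) (hQ : Q G (W ∪ Y)) : Q G W := by
  obtain ⟨f2, f3, hf2, hf3, hf2W, hnz⟩ := hQ
  have hneg2 : ∀ z : ZMod 2, -z ≠ 0 → z ≠ 0 := by decide
  set KW : V → V → Prop := fun a b => G.Adj a b ∧ a ∈ W ∧ b ∈ W with hKW
  set KH : V → V → Prop := fun a b => h a b ≠ 0 with hKH
  have KWs : ∀ u v, KW u v → KW v u := fun u v h => ⟨h.1.symm, h.2.2, h.2.1⟩
  have KHs : ∀ u v, KH u v → KH v u := by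
    intro u v huv
    simp only [hKH] at huv ⊢
    rw [hh.anti u v] at huv
    exact hneg2 _ huv
  have KHadj : ∀ u v, KH u v → G.Adj u v := by
    intro u v huv
    by_contra hcon
    exact huv (hh.supp u v hcon)
  set K1 : V → V → Prop := fun a b => KW a b ∨ KH a b ∨ (a = x1 ∧ b = w1) ∨ (a = w1 ∧ b = x1)
    with hK1
  have K1s : ∀ u v, K1 u v → K1 v u := by
    intro u v huv
    rcases huv with h | h | ⟨h, h'⟩ | ⟨h, h'⟩
    · exact Or.inl (KWs _ _ h)
    · exact Or.inr (Or.inl (KHs _ _ h))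
    · exact Or.inr (Or.inr (Or.inr ⟨h', h⟩))
    · exact Or.inr (Or.inr (Or.inl ⟨h', h⟩))
  have K1adj : ∀ u v, K1 u v → G.Adj u v := by
    intro u v huv
    rcases huv with h | h | ⟨rfl, rfl⟩ | ⟨rfl, rfl⟩
    · exact h.1
    · exact KHadj _ _ h
    · exact e1
    · exact e1.symm
  have K1in : ∀ u v, K1 u v → u ∈ W ∪ Y ∧ v ∈ W ∪ Y := by
    intro u v huv
    simp only [mem_union]
    rcases huv with h | h | ⟨rfl, rfl⟩ | ⟨rfl, rfl⟩
    · exact ⟨Or.inl h.2.1, Or.inl h.2.2⟩
    · exact ⟨Or.inr (hhY _ _ h).1, Or.inr (hhY _ _ h).2⟩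
    · exact ⟨Or.inr hx1, Or.inl hw1⟩
    · exact ⟨Or.inl hw1, Or.inr hx1⟩
  have toW : ∀ u ∈ W ∪ Y, ∃ r ∈ W, Relation.ReflTransGen K1 u r := by
    intro u hu
    rcases mem_union.mp hu with h | h
    · exact ⟨u, h, Relation.ReflTransGen.refl⟩
    · refine ⟨w1, hw1, ?_⟩
      have h3 : Relation.ReflTransGen K1 x1 u :=
        rtg_mono (fun a b hab => Or.inr (Or.inl hab)) (hYc u h)
      have h4 : Relation.ReflTransGen K1 u x1 := rtg_symm K1s h3
      exact h4.tail (Or.inr (Or.inr (Or.inl ⟨rfl, rfl⟩)))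
  have connK1 : ∀ u ∈ W ∪ Y, ∀ v ∈ W ∪ Y, G.Reachable u v → Relation.ReflTransGen K1 u v := by
    intro u hu v hv huv
    obtain ⟨r, hr, hur⟩ := toW u hu
    obtain ⟨r', hr', hvr⟩ := toW v hv
    have h3 : G.Reachable r r' :=
      ((rtg_reachable K1adj hur).symm.trans huv).trans (rtg_reachable K1adj hvr)
    have h4 : Relation.ReflTransGen K1 r r' :=
      rtg_mono (fun a b hab => Or.inl hab) (hW r hr r' hr' h3)
    exact (hur.trans h4).trans (rtg_symm K1s hvr)
  set T : V → V → Prop := fun a b => G.Adj a b ∧ (a ∈ W ∪ Y ∧ b ∈ W ∪ Y) ∧ ¬ K1 a b ∧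
    ¬ ((a = x2 ∧ b = w2) ∨ (a = w2 ∧ b = x2)) with hT
  obtain ⟨g, hg, hgeq, hgT⟩ := fix_edges (G := G) K1 T K1s K1adj (fun u v h => h.1)
    (fun u v h => ⟨h.1.symm, ⟨h.2.1.2, h.2.1.1⟩, fun h' => h.2.2.1 (K1s _ _ h'),
      fun h' => h.2.2.2 (by
        rcases h' with ⟨a, b⟩ | ⟨a, b⟩
        · exact Or.inr ⟨b, a⟩
        · exact Or.inl ⟨b, a⟩)⟩)
    (fun u v h h' => h'.2.2.1 h)
    (fun u v h => connK1 u h.2.1.1 v h.2.1.2 h.1.reachable) _ f3 hf3 rfl
  -- the circulation through both edges
  obtain ⟨pH, pHa, pHK, pHs⟩ := exists_unit' KH KHs (hYc x2 hx2)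
  have hreach : G.Reachable w2 w1 := by
    have h3 : G.Reachable x1 x2 := rtg_reachable KHadj (hYc x2 hx2)
    exact (e2.symm.reachable.trans h3.symm).trans e1.reachable
  obtain ⟨pW, pWa, pWK, pWs⟩ := exists_unit' KW KWs (hW w2 hw2 w1 hw1 hreach)
  set c : V → V → ℤ := fun u v => arc w1 x1 u v + pH u v + arc x2 w2 u v + pW u v with hc
  have csupp : ∀ u v, c u v ≠ 0 → K1 u v ∨ ((u = x2 ∧ v = w2) ∨ (u = w2 ∧ v = x2)) := by
    intro u v huv
    by_contra hcon
    push Not at hcon
    apply huv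
    have c1 : arc w1 x1 u v = 0 := by
      by_contra h3
      rcases arc_ne h3 with h4 | h4
      · exact hcon.1 (Or.inr (Or.inr (Or.inr h4)))
      · exact hcon.1 (Or.inr (Or.inr (Or.inl h4)))
    have c2 : pH u v = 0 := by
      by_contra h3
      exact hcon.1 (Or.inr (Or.inl (pHK u v h3)))
    have c3 : arc x2 w2 u v = 0 := by
      by_contra h3
      rcases arc_ne h3 with h4 | h4
      · exact hcon.2.1 h4.1 h4.2
      · exact hcon.2.2 h4.1 h4.2
    have c4 : pW u v = 0 := by
      by_contra h3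
      exact hcon.1 (Or.inl (pWK u v h3))
    simp only [hc]
    rw [c1, c2, c3, c4]
    norm_num
  have hcflow : IsFlow G c := by
    constructor
    · intro u v
      simp only [hc]
      rw [arc_anti w1 x1, arc_anti x2 w2, pHa u v, pWa u v]
      ring
    · intro u v huv
      by_contra h3
      rcases csupp u v h3 with h4 | ⟨rfl, rfl⟩ | ⟨rfl, rfl⟩
      · exact huv (K1adj _ _ h4)
      · exact huv e2
      · exact huv e2.symm
    · intro u
      simp only [hc]
      rw [Finset.sum_add_distrib, Finset.sum_add_distrib, Finset.sum_add_distrib, arc_sum,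
        arc_sum, pHs, pWs]
      ring
  have hw1Y : w1 ∉ Y := hWY w1 hw1
  have hw2Y : w2 ∉ Y := hWY w2 hw2
  have hx1W : x1 ∉ W := fun h3 => hWY x1 h3 hx1
  have hx2W : x2 ∉ W := fun h3 => hWY x2 h3 hx2
  have c_e1 : c w1 x1 = 1 := by
    have c2 : pH w1 x1 = 0 := by
      by_contra h3
      exact hw1Y (hhY _ _ (pHK _ _ h3)).1
    have c3 : arc x2 w2 w1 x1 = 0 := by
      by_contra h3
      rcases arc_ne h3 with h4 | h4
      · exact hw1Y (h4.1 ▸ hx2)
      · exact hne (by rw [h4.1, h4.2])
    have c4 : pW w1 x1 = 0 := by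
      by_contra h3
      exact hx1W (pWK _ _ h3).2.2
    simp only [hc]
    rw [arc_self (fun h3 : w1 = x1 => hw1Y (h3 ▸ hx1)), c2, c3, c4]
    norm_num
  have c_e2 : c x2 w2 = 1 := by
    have c1 : arc w1 x1 x2 w2 = 0 := by
      by_contra h3
      rcases arc_ne h3 with h4 | h4
      · exact hw1Y (h4.1 ▸ hx2)
      · exact hne (by rw [h4.1, h4.2])
    have c2 : pH x2 w2 = 0 := by
      by_contra h3
      exact hw2Y (hhY _ _ (pHK _ _ h3)).2
    have c4 : pW x2 w2 = 0 := by
      by_contra h3
      exact hx2W (pWK _ _ h3).2.1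
    simp only [hc]
    rw [arc_self (fun h3 : x2 = w2 => hx2W (h3 ▸ hw2)), c1, c2, c4]
    norm_num
  obtain ⟨s, hs1, hs2⟩ := exists_shift (g w1 x1) (g x2 w2)
  set g' : V → V → ZMod 3 := fun u v => g u v + s * (c u v : ZMod 3) with hg'
  have hg'flow : IsFlow G g' := hg.add (hcflow.smulZ3 s)
  have hg'e1 : g' w1 x1 ≠ 0 := by
    simp only [hg']
    rw [c_e1]
    simpa using hs1
  have hg'e2 : g' x2 w2 ≠ 0 := by
    simp only [hg']
    rw [c_e2]
    simpa using hs2
  have hg'same : ∀ u v, ¬ K1 u v → ¬ ((u = x2 ∧ v = w2) ∨ (u = w2 ∧ v = x2)) →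
      g' u v = g u v := by
    intro u v h3 h4
    have h5 : c u v = 0 := by
      by_contra h6
      rcases csupp u v h6 with h7 | h7
      · exact h3 h7
      · exact h4 h7
    simp only [hg']
    rw [h5]
    simp
  refine ⟨fun u v => f2 u v + h u v, g', hf2.add hh, hg'flow, ?_, ?_⟩
  · intro u v huv
    have h3 : f2 u v = 0 := hf2W u v (by
      rcases huv with h4 | h4
      · exact Or.inl (mem_union_left _ h4)
      · exact Or.inr (mem_union_left _ h4))
    have h4 : h u v = 0 := by
      by_contra h5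
      have h6 := hhY u v h5
      rcases huv with h7 | h7
      · exact hWY u h7 h6.1
      · exact hWY v h7 h6.2
    beta_reduce
    rw [h3, h4, add_zero]
  · intro u v huv hnW
    by_cases hin : u ∈ W ∪ Y ∧ v ∈ W ∪ Y
    · by_cases h3 : h u v = 0
      · right
        by_cases h4 : (u = x2 ∧ v = w2) ∨ (u = w2 ∧ v = x2)
        · rcases h4 with ⟨rfl, rfl⟩ | ⟨rfl, rfl⟩
          · exact hg'e2
          · rw [hg'flow.anti]
            simpa using hg'e2
        · by_cases h5 : K1 u v
          · rcases h5 with h6 | h6 | ⟨rfl, rfl⟩ | ⟨rfl, rfl⟩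
            · exact absurd h6.2 hnW
            · exact absurd h3 h6
            · rw [hg'flow.anti]
              simpa using hg'e1
            · exact hg'e1
          · rw [hg'same u v h5 h4]
            exact hgT u v ⟨huv, hin, h5, h4⟩
      · left
        beta_reduce
        rw [hf2W u v (Or.inl hin.1), zero_add]
        exact h3
    · have h3 : h u v = 0 := by
        by_contra h5
        have h6 := hhY u v h5
        exact hin ⟨mem_union_right _ h6.1, mem_union_right _ h6.2⟩
      have h4 : ¬ K1 u v := fun h5 => hin (K1in u v h5)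
      have h5 : ¬ ((u = x2 ∧ v = w2) ∨ (u = w2 ∧ v = x2)) := by
        rintro (⟨rfl, rfl⟩ | ⟨rfl, rfl⟩)
        · exact hin ⟨mem_union_right _ hx2, mem_union_left _ hw2⟩
        · exact hin ⟨mem_union_left _ hw2, mem_union_right _ hx2⟩
      have h6 : ¬ T u v := fun h7 => hin h7.2.1
      beta_reduce
      rw [hg'same u v h4 h5, hgeq u v h4 h6, h3, add_zero]
      exact hnz u v huv hin

theorem conn_union {G : SimpleGraph V} {W Y : Finset V} (hW : Conn G W)
    (hY : ∀ y ∈ Y, ∃ w ∈ W,
      Relation.ReflTransGen (fun a b => G.Adj a b ∧ a ∈ W ∪ Y ∧ b ∈ W ∪ Y) y w) :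
    Conn G (W ∪ Y) := by
  set R : V → V → Prop := fun a b => G.Adj a b ∧ a ∈ W ∪ Y ∧ b ∈ W ∪ Y with hR
  have Rs : ∀ u v, R u v → R v u := fun u v h => ⟨h.1.symm, h.2.2, h.2.1⟩
  have Radj : ∀ u v, R u v → G.Adj u v := fun u v h => h.1
  have toW : ∀ u ∈ W ∪ Y, ∃ r ∈ W, Relation.ReflTransGen R u r := by
    intro u hu
    rcases mem_union.mp hu with h | h
    · exact ⟨u, h, Relation.ReflTransGen.refl⟩
    · exact hY u h
  intro u hu v hv huv
  obtain ⟨r, hr, hur⟩ := toW u hu
  obtain ⟨r', hr', hvr⟩ := toW v hv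
  have h3 : G.Reachable r r' :=
    ((rtg_reachable Radj hur).symm.trans huv).trans (rtg_reachable Radj hvr)
  have h4 : Relation.ReflTransGen R r r' :=
    rtg_mono (fun a b hab => ⟨hab.1, mem_union_left _ hab.2.1, mem_union_left _ hab.2.2⟩)
      (hW r hr r' hr' h3)
  exact (hur.trans h4).trans (rtg_symm Rs hvr)

theorem cutE_compl {G : SimpleGraph V} {W X : Finset V} (hXW : X ⊆ Wᶜ) :
    cutE G X Xᶜ = cutE G X W ∪ cutE G X (W ∪ X)ᶜ ∧
      Disjoint (cutE G X W) (cutE G X (W ∪ X)ᶜ) := by
  constructor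
  · ext q
    simp only [mem_union, mem_cutE, mem_compl, not_or]
    constructor
    · rintro ⟨⟨h1, h2⟩, h3⟩
      by_cases h4 : q.2 ∈ W
      · exact Or.inl ⟨⟨h1, h4⟩, h3⟩
      · exact Or.inr ⟨⟨h1, h4, h2⟩, h3⟩
    · rintro (⟨⟨h1, h2⟩, h3⟩ | ⟨⟨h1, h2, h4⟩, h3⟩)
      · refine ⟨⟨h1, fun h4 => ?_⟩, h3⟩
        have := hXW h4
        rw [mem_compl] at this
        exact this h2
      · exact ⟨⟨h1, h4⟩, h3⟩
  · rw [Finset.disjoint_left]
    intro q h1 h2
    rw [mem_cutE] at h1 h2
    rw [mem_compl, mem_union, not_or] at h2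
    exact h2.1.2.1 h1.1.2

theorem step_one {G : SimpleGraph V} (hb : Bridgeless G) {W X : Finset V} (hXW : X ⊆ Wᶜ)
    (hcut : (cutE G X (W ∪ X)ᶜ).card ≤ 1) (hle : (cutE G X W).card ≤ 1) {x1 : V} (hx1 : x1 ∈ X)
    (hQ : Q G (W ∪ {x1})) : Q G W := by
  obtain ⟨f2, f3, hf2, hf3, hf2W, hnz⟩ := hQ
  have key : ∀ v, v ∈ W → G.Adj x1 v → f3 x1 v ≠ 0 := by
    intro v hv hadj
    have hmem : (x1, v) ∈ cutE G X W := by
      rw [mem_cutE]; exact ⟨⟨hx1, hv⟩, hadj⟩
    have hone : cutE G X W = {(x1, v)} := by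
      have h1 : (cutE G X W).card = 1 := le_antisymm hle (Finset.card_pos.mpr ⟨_, hmem⟩)
      rw [Finset.card_eq_one] at h1
      obtain ⟨a, ha⟩ := h1
      rw [ha, mem_singleton] at hmem
      rw [ha, ← hmem]
    obtain ⟨hun, hdis⟩ := cutE_compl (G := G) hXW
    have hne := hb.card_ne_one X
    rw [hun, Finset.card_union_of_disjoint hdis, hone, Finset.card_singleton] at hne
    have hcard : (cutE G X (W ∪ X)ᶜ).card = 1 := by omega
    rw [Finset.card_eq_one] at hcard
    obtain ⟨⟨a, b⟩, hab⟩ := hcard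
    have habmem : (a, b) ∈ cutE G X (W ∪ X)ᶜ := by rw [hab]; exact mem_singleton_self _
    rw [mem_cutE, mem_compl, mem_union, not_or] at habmem
    have s2 := flow_cut hf2 X
    have s3 := flow_cut hf3 X
    rw [hun, Finset.sum_union hdis, hone, hab, Finset.sum_singleton, Finset.sum_singleton] at s2 s3
    have h2 : f2 a b = 0 := by
      rw [hf2W x1 v (Or.inr (mem_union_left _ hv)), zero_add] at s2
      exact s2
    have h3 : f3 a b ≠ 0 := by
      rcases hnz a b habmem.2 (by
        rintro ⟨-, h4⟩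
        rcases mem_union.mp h4 with h5 | h5
        · exact habmem.1.2.1 h5
        · rw [mem_singleton] at h5
          exact habmem.1.2.2 (h5 ▸ hx1)) with h4 | h4
      · exact absurd h2 h4
      · exact h4
    intro h4
    rw [h4, zero_add] at s3
    exact h3 s3
  refine ⟨f2, f3, hf2, hf3, ?_, ?_⟩
  · intro u v huv
    apply hf2W
    rcases huv with h | h
    · exact Or.inl (mem_union_left _ h)
    · exact Or.inr (mem_union_left _ h)
  · intro u v huv hnW
    by_cases hin : u ∈ W ∪ {x1} ∧ v ∈ W ∪ {x1}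
    · right
      simp only [mem_union, mem_singleton] at hin
      rcases hin with ⟨h1 | h1, h2 | h2⟩
      · exact absurd ⟨h1, h2⟩ hnW
      · subst h2
        have h3 := key u h1 huv.symm
        rw [hf3.anti]
        simpa using h3
      · subst h1
        exact key v h2 huv
      · exact absurd (h1.trans h2.symm) huv.ne
    · exact hnz u v huv hin

theorem six_flow_aux {G : SimpleGraph V} (hb : Bridgeless G) :
    ∀ (N : ℕ) (W : Finset V), (Wᶜ).card = N → Conn G W → Q G W := by
  intro N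
  induction N using Nat.strong_induction_on with
  | _ N ih =>
  intro W hN hW
  by_cases hempty : Wᶜ = ∅
  · refine ⟨fun _ _ => 0, fun _ _ => 0, IsFlow.zero, IsFlow.zero, fun _ _ _ => rfl, ?_⟩
    intro u v _ hn
    exfalso
    apply hn
    rw [Finset.compl_eq_empty_iff] at hempty
    rw [hempty]
    exact ⟨mem_univ _, mem_univ _⟩
  -- smaller complement
  have hsmall : ∀ (Y : Finset V), (∀ u, u ∈ W → u ∉ Y) → Y.Nonempty → Conn G (W ∪ Y) →
      Q G (W ∪ Y) := by
    intro Y hY hYne hc
    refine ih _ ?_ (W ∪ Y) rfl hc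
    rw [← hN]
    apply Finset.card_lt_card
    rw [Finset.ssubset_iff_of_subset]
    · obtain ⟨y, hy⟩ := hYne
      refine ⟨y, ?_, ?_⟩
      · rw [mem_compl]
        exact fun h => hY y h hy
      · rw [mem_compl, not_not]
        exact mem_union_right _ hy
    · intro q hq
      rw [mem_compl] at hq ⊢
      exact fun h => hq (mem_union_left _ h)
  -- minimal set X
  set P : Finset (Finset V) := univ.filter (fun X => X.Nonempty ∧ X ⊆ Wᶜ ∧
    (cutE G X (W ∪ X)ᶜ).card ≤ 1) with hP
  have hPne : P.Nonempty := by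
    refine ⟨Wᶜ, ?_⟩
    simp only [hP, mem_filter, mem_univ, true_and]
    refine ⟨Finset.nonempty_iff_ne_empty.mpr hempty, subset_rfl, ?_⟩
    have : cutE G Wᶜ (W ∪ Wᶜ)ᶜ = ∅ := by
      rw [Finset.union_compl, Finset.compl_univ, cutE, Finset.product_empty]
      rfl
    rw [this]
    simp
  obtain ⟨X, hXP, hXmin⟩ := Finset.exists_min_image P Finset.card hPne
  simp only [hP, mem_filter, mem_univ, true_and] at hXP
  obtain ⟨hXne, hXW, hXcut⟩ := hXP
  have hmin : ∀ Y ⊆ X, Y.Nonempty → Y ≠ X → 2 ≤ (cutE G Y (W ∪ Y)ᶜ).card := by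
    intro Y hYX hYne hYX'
    by_contra hcon
    push Not at hcon
    have h1 : Y ∈ P := by
      simp only [hP, mem_filter, mem_univ, true_and]
      exact ⟨hYne, hYX.trans hXW, by omega⟩
    exact hYX' (Finset.eq_of_subset_of_card_le hYX (hXmin Y h1))
  have hXW' : ∀ u, u ∈ W → u ∉ X := by
    intro u hu h
    have := hXW h
    rw [mem_compl] at this
    exact this hu
  by_cases hcase : 2 ≤ (cutE G X W).card
  · obtain ⟨⟨x1, w1⟩, hq1, ⟨x2, w2⟩, hq2, hne⟩ := Finset.one_lt_card.mp hcase
    rw [mem_cutE] at hq1 hq2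
    obtain ⟨⟨hx1, hw1⟩, e1⟩ := hq1
    obtain ⟨⟨hx2, hw2⟩, e2⟩ := hq2
    simp only at hx1 hw1 e1 hx2 hw2 e2
    by_cases hxx : x1 = x2
    · subst hxx
      have hdisj : ∀ u, u ∈ W → u ∉ ({x1} : Finset V) := by
        intro u hu h
        rw [mem_singleton] at h
        exact hXW' u hu (h ▸ hx1)
      refine step_two W {x1} (fun _ _ => 0) hdisj IsFlow.zero (fun u v h => absurd rfl h)
        (mem_singleton_self x1) (mem_singleton_self x1) ?_ hw1 hw2 e1 e2 hne hW
        (hsmall {x1} hdisj ⟨x1, mem_singleton_self _⟩ (conn_union hW ?_))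
      · intro y hy
        rw [mem_singleton] at hy
        subst hy
        exact Relation.ReflTransGen.refl
      · intro y hy
        rw [mem_singleton] at hy
        subst hy
        exact ⟨w1, hw1, Relation.ReflTransGen.single
          ⟨e1, mem_union_right _ (mem_singleton_self _), mem_union_left _ hw1⟩⟩
    · -- two edge-disjoint paths
      obtain ⟨φ, φa, φle, φX, φs⟩ := two_paths (G := G) X (x2 := x2) hx1 (by
        intro S hSX h1S h2S
        by_contra hcon
        push Not at hcon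
        have hT2 : x2 ∈ X \ S := by rw [mem_sdiff]; exact ⟨hx2, h2S⟩
        have hTX : X \ S ⊆ X := Finset.sdiff_subset
        have m1 := hmin S hSX ⟨x1, h1S⟩ (by rintro rfl; exact h2S hx2)
        have m2 := hmin (X \ S) hTX ⟨x2, hT2⟩ (by
          intro h
          have : x1 ∈ X \ S := by rw [h]; exact hx1
          rw [mem_sdiff] at this
          exact this.2 h1S)
        -- cut of S
        have c1 : cutE G S (W ∪ S)ᶜ ⊆ cutE G S (X \ S) ∪ cutE G S (W ∪ X)ᶜ := by
          intro q hq
          simp only [mem_union, mem_cutE, mem_compl, mem_sdiff, not_or] at hq ⊢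
          by_cases h : q.2 ∈ X
          · exact Or.inl ⟨⟨hq.1.1, h, hq.1.2.2⟩, hq.2⟩
          · exact Or.inr ⟨⟨hq.1.1, hq.1.2.1, h⟩, hq.2⟩
        have c2 : cutE G (X \ S) (W ∪ (X \ S))ᶜ ⊆ cutE G (X \ S) S ∪ cutE G (X \ S) (W ∪ X)ᶜ := by
          intro q hq
          simp only [mem_union, mem_cutE, mem_compl, mem_sdiff, not_or, not_and, not_not] at hq ⊢
          by_cases h : q.2 ∈ S
          · exact Or.inl ⟨⟨hq.1.1, h⟩, hq.2⟩
          · exact Or.inr ⟨⟨hq.1.1, hq.1.2.1, fun h' => h (hq.1.2.2 h')⟩, hq.2⟩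
        have c3 : cutE G S (W ∪ X)ᶜ ∪ cutE G (X \ S) (W ∪ X)ᶜ ⊆ cutE G X (W ∪ X)ᶜ := by
          intro q hq
          simp only [mem_union, mem_cutE, mem_sdiff] at hq ⊢
          rcases hq with h | h
          · exact ⟨⟨hSX h.1.1, h.1.2⟩, h.2⟩
          · exact ⟨⟨h.1.1.1, h.1.2⟩, h.2⟩
        have c4 : Disjoint (cutE G S (W ∪ X)ᶜ) (cutE G (X \ S) (W ∪ X)ᶜ) := by
          rw [Finset.disjoint_left]
          intro q h1 h2
          rw [mem_cutE] at h1 h2
          rw [mem_sdiff] at h2
          exact h2.1.1.2 h1.1.1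
        have d1 := (Finset.card_le_card c1).trans (Finset.card_union_le _ _)
        have d2 := (Finset.card_le_card c2).trans (Finset.card_union_le _ _)
        have d3 := Finset.card_le_card c3
        rw [Finset.card_union_of_disjoint c4] at d3
        rw [card_cutE_comm G (X \ S) S] at d2
        omega)
      set KH : V → V → Prop := fun a b => φ a b ≠ 0 with hKH
      set Y : Finset V := univ.filter (fun y => Relation.ReflTransGen KH x1 y) with hY
      have hYmem : ∀ y, y ∈ Y ↔ Relation.ReflTransGen KH x1 y := by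
        intro y; simp [hY]
      have hx1Y : x1 ∈ Y := (hYmem x1).mpr Relation.ReflTransGen.refl
      have hYclosed : ∀ u v, u ∈ Y → φ u v ≠ 0 → v ∈ Y := by
        intro u v hu huv
        rw [hYmem] at hu ⊢
        exact hu.tail huv
      have hφdiag : ∀ u, φ u u = 0 := fun u => by have := φa u u; omega
      have hYX : Y ⊆ X := by
        intro y hy
        rw [hYmem] at hy
        induction hy with
        | refl => exact hx1
        | tail _ hbc _ => exact (φX _ _ hbc).2.2
      have hx2Y : x2 ∈ Y := by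
        by_contra hcon
        have h1 : ∑ u ∈ Y, ∑ v, φ u v = 2 := by
          simp_rw [φs]
          rw [← Finset.mul_sum, Finset.sum_sub_distrib]
          simp [hx1Y, hcon]
        rw [sum_cut φ φa hφdiag Y] at h1
        have h2 : ∑ u ∈ Y, ∑ v ∈ Yᶜ, φ u v = 0 := by
          refine Finset.sum_eq_zero fun u hu => Finset.sum_eq_zero fun v hv => ?_
          by_contra h3
          rw [mem_compl] at hv
          exact hv (hYclosed u v hu h3)
        omega
      set h : V → V → ZMod 2 := fun u v => if u ∈ Y then (φ u v : ZMod 2) else 0 with hh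
      have hcast : ∀ u v, (φ u v : ZMod 2) ≠ 0 → φ u v ≠ 0 := by
        intro u v h1 h2
        rw [h2] at h1
        simp at h1
      have hneg : ∀ z : ZMod 2, z = -z := by decide
      have hflow : IsFlow G h := by
        constructor
        · intro u v
          simp only [hh]
          by_cases hz : φ u v = 0
          · have hz' : φ v u = 0 := by have := φa u v; omega
            simp [hz, hz']
          · have hz' : φ v u ≠ 0 := by have := φa u v; omega
            by_cases hu : u ∈ Y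
            · rw [if_pos hu, if_pos (hYclosed u v hu hz), φa u v]
              push_cast
              rfl
            · have hv : v ∉ Y := fun hv => hu (hYclosed v u hv hz')
              rw [if_neg hu, if_neg hv, neg_zero]
        · intro u v huv
          simp only [hh]
          have : φ u v = 0 := by
            by_contra h3
            exact huv (φX u v h3).1
          simp [this]
        · intro u
          simp only [hh]
          by_cases hu : u ∈ Y
          · simp only [if_pos hu]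
            have h3 := congrArg (fun z : ℤ => (z : ZMod 2)) (φs u)
            push_cast at h3
            rw [h3]
            have : (2 : ZMod 2) = 0 := by decide
            rw [this, zero_mul]
          · simp [hu]
      have hhne : ∀ u v, u ∈ Y → φ u v ≠ 0 → h u v ≠ 0 := by
        intro u v hu huv
        simp only [hh]
        rw [if_pos hu, Ne, ZMod.intCast_zmod_eq_zero_iff_dvd]
        have h3 := φle u v
        have h4 := φle v u
        have h5 := φa u v
        push_cast
        omega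
      have hdisj : ∀ u, u ∈ W → u ∉ Y := fun u hu h3 => hXW' u hu (hYX h3)
      have hhY : ∀ u v, h u v ≠ 0 → u ∈ Y ∧ v ∈ Y := by
        intro u v huv
        simp only [hh] at huv
        by_cases hu : u ∈ Y
        · rw [if_pos hu] at huv
          exact ⟨hu, hYclosed u v hu (hcast u v huv)⟩
        · rw [if_neg hu] at huv
          exact absurd rfl huv
      have hYc : ∀ y ∈ Y, Relation.ReflTransGen (fun a b => h a b ≠ 0) x1 y := by
        intro y hy
        have hy' := (hYmem y).mp hy
        clear hy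
        induction hy' with
        | refl => exact Relation.ReflTransGen.refl
        | tail hab hbc ih2 => exact ih2.tail (hhne _ _ ((hYmem _).mpr hab) hbc)
      refine step_two W Y h hdisj hflow hhY hx1Y hx2Y hYc hw1 hw2 e1 e2 hne hW
        (hsmall Y hdisj ⟨x1, hx1Y⟩ (conn_union hW ?_))
      intro y hy
      refine ⟨w1, hw1, ?_⟩
      have h3 : Relation.ReflTransGen (fun a b => G.Adj a b ∧ a ∈ W ∪ Y ∧ b ∈ W ∪ Y) x1 y :=
        rtg_mono (fun a b hab => by
          have h4 := hhY a b hab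
          refine ⟨?_, mem_union_right _ h4.1, mem_union_right _ h4.2⟩
          by_contra h5
          exact hab (hflow.supp a b h5)) (hYc y hy)
      have h4 := rtg_symm (fun a b (hab : G.Adj a b ∧ a ∈ W ∪ Y ∧ b ∈ W ∪ Y) =>
        (⟨hab.1.symm, hab.2.2, hab.2.1⟩ : G.Adj b a ∧ b ∈ W ∪ Y ∧ a ∈ W ∪ Y)) h3
      exact h4.tail ⟨e1, mem_union_right _ hx1Y, mem_union_left _ hw1⟩
  · push Not at hcase
    have hle : (cutE G X W).card ≤ 1 := by omega
    by_cases hcut0 : (cutE G X W).Nonempty
    · obtain ⟨⟨x1, w1⟩, hq⟩ := hcut0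
      have hq' := hq
      rw [mem_cutE] at hq'
      obtain ⟨⟨hx1, hw1⟩, e1⟩ := hq'
      simp only at hx1 hw1 e1
      have hdisj : ∀ u, u ∈ W → u ∉ ({x1} : Finset V) := by
        intro u hu h
        rw [mem_singleton] at h
        exact hXW' u hu (h ▸ hx1)
      refine step_one hb hXW hXcut hle hx1
        (hsmall {x1} hdisj ⟨x1, mem_singleton_self _⟩ (conn_union hW ?_))
      intro y hy
      rw [mem_singleton] at hy
      subst hy
      exact ⟨w1, hw1, Relation.ReflTransGen.single
        ⟨e1, mem_union_right _ (mem_singleton_self _), mem_union_left _ hw1⟩⟩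
    · rw [Finset.not_nonempty_iff_eq_empty] at hcut0
      obtain ⟨x1, hx1⟩ := hXne
      have hdisj : ∀ u, u ∈ W → u ∉ ({x1} : Finset V) := by
        intro u hu h
        rw [mem_singleton] at h
        exact hXW' u hu (h ▸ hx1)
      obtain ⟨hun, hdis⟩ := cutE_compl (G := G) hXW
      have h0 : cutE G X Xᶜ = ∅ := by
        have h1 := hb.card_ne_one X
        rw [hun, hcut0, Finset.empty_union] at h1 ⊢
        rw [← Finset.card_eq_zero]
        omega
      have hnocross : ∀ a b, a ∈ X → b ∉ X → ¬ G.Reachable a b := by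
        intro a b ha hb2 hr
        obtain ⟨c, d, hc, hd, hcd⟩ := exists_cross X hr ha hb2
        have : (c, d) ∈ cutE G X Xᶜ := by
          rw [mem_cutE, mem_compl]
          exact ⟨⟨hc, hd⟩, hcd⟩
        rw [h0] at this
        simp at this
      refine step_one hb hXW hXcut hle hx1
        (hsmall {x1} hdisj ⟨x1, mem_singleton_self _⟩ ?_)
      intro u hu v hv huv
      simp only [mem_union, mem_singleton] at hu hv
      rcases hu with hu | hu <;> rcases hv with hv | hv
      · exact rtg_mono (fun a b hab => ⟨hab.1, mem_union_left _ hab.2.1,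
          mem_union_left _ hab.2.2⟩) (hW u hu v hv huv)
      · subst hv
        exact absurd huv.symm (hnocross v u hx1 (hXW' u hu))
      · subst hu
        exact absurd huv (hnocross u v hx1 (hXW' v hv))
      · rw [hu, hv]

/-- **Seymour's 6-flow theorem.** -/
theorem six_flow {G : SimpleGraph V} (hb : Bridgeless G) :
    ∃ f2 : V → V → ZMod 2, ∃ f3 : V → V → ZMod 3, IsFlow G f2 ∧ IsFlow G f3 ∧
      ∀ u v, G.Adj u v → f2 u v ≠ 0 ∨ f3 u v ≠ 0 := by
  obtain ⟨f2, f3, h2, h3, -, h⟩ := six_flow_aux hb _ ∅ rfl (by intro u hu; simp at hu)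
  exact ⟨f2, f3, h2, h3, fun u v huv => h u v huv (by simp)⟩

end Pool.Agent.H46.Flow
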